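import Mathlib

/-! Symmetric convex bodies and their integer points. -/

set_option autoImplicit false
open Finset
open scoped Pointwise

namespace Pool.Agent.Q240.Cvx

/-- integer vectors as real vectors -/
def cst {r : ℕ} (x : Fin r → ℤ) : Fin r → ℝ := fun i => (x i : ℝ)

lemma cst_add {r : ℕ} (x y : Fin r → ℤ) : cst (x + y) = cst x + cst y := by
  funext i; simp [cst]

lemma cst_sub {r : ℕ} (x y : Fin r → ℤ) : cst (x - y) = cst x - cst y := by
  funext i; simp [cst]

lemma cst_neg {r : ℕ} (x : Fin r → ℤ) : cst (-x) = -cst x := by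
  funext i; simp [cst]

lemma cst_zero {r : ℕ} : cst (0 : Fin r → ℤ) = 0 := by
  funext i; simp [cst]

lemma cst_inj {r : ℕ} : Function.Injective (cst (r := r)) := by
  intro x y h
  funext i
  have := congrFun h i
  simp only [cst] at this
  exact_mod_cast this

lemma isClosed_cst {r : ℕ} (W : Set (Fin r → ℤ)) : IsClosed (cst '' W) := by
  have h : Topology.IsClosedEmbedding (cst (r := r)) :=
    Topology.IsClosedEmbedding.piMap (fun _ => Int.isClosedEmbedding_coe_real)
  exact h.isClosedMap _ (isClosed_discrete W)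

/-- the volume bound: points of `B + B` whose differences are not in `B` -/
lemma sep_card {r : ℕ} (B : Set (Fin r → ℝ)) (hc : Convex ℝ B) (hk : IsCompact B)
    (hi : (interior B).Nonempty) (hs : ∀ x ∈ B, -x ∈ B) (Y : Finset (Fin r → ℤ))
    (h1 : ∀ y ∈ Y, ∃ u ∈ B, ∃ v ∈ B, cst y = u + v)
    (h2 : ∀ y ∈ Y, ∀ y' ∈ Y, y ≠ y' → cst (y - y') ∉ B) : Y.card ≤ 5 ^ r := by
  classical
  let μ : MeasureTheory.Measure (Fin r → ℝ) := MeasureTheory.volume
  have hμ0 : μ B ≠ 0 := by
    have h := (isOpen_interior.measure_pos μ hi)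
    exact (lt_of_lt_of_le h (MeasureTheory.measure_mono interior_subset)).ne'
  have hμt : μ B ≠ ⊤ := hk.measure_lt_top.ne
  let S : Set (Fin r → ℝ) := (1 / 2 : ℝ) • B
  have hSm : MeasurableSet S := (hk.smul (1 / 2 : ℝ)).isClosed.measurableSet
  let F : (Fin r → ℤ) → Set (Fin r → ℝ) := fun y => (fun x => x + (-cst y)) ⁻¹' S
  have hFm : ∀ y, MeasurableSet (F y) := fun y => (measurable_add_const _) hSm
  have hFμ : ∀ y, μ (F y) = μ S := fun y => MeasureTheory.measure_preimage_add_right μ _ S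
  have hdis : (Y : Set (Fin r → ℤ)).PairwiseDisjoint F := by
    intro y hy y' hy' hne
    rw [Function.onFun, Set.disjoint_left]
    intro x hx hx'
    apply h2 y hy y' hy' hne
    obtain ⟨b, hb, e1⟩ := hx
    obtain ⟨b', hb', e2⟩ := hx'
    have : cst (y - y') = (1 / 2 : ℝ) • b' + (1 / 2 : ℝ) • (-b) := by
      rw [cst_sub]
      simp only at e1 e2
      rw [e2, smul_neg, e1]
      abel
    rw [this]
    exact hc hb' (hs b hb) (by norm_num) (by norm_num) (by norm_num)
  have hsub : (⋃ y ∈ Y, F y) ⊆ (5 / 2 : ℝ) • B := by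
    intro x hx
    rw [Set.mem_iUnion₂] at hx
    obtain ⟨y, hy, b, hb, e1⟩ := hx
    obtain ⟨u, hu, v, hv, e2⟩ := h1 y hy
    refine ⟨(2 / 5 : ℝ) • u + (3 / 5 : ℝ) • ((2 / 3 : ℝ) • v + (1 / 3 : ℝ) • b),
      hc hu (hc hv hb (by norm_num) (by norm_num) (by norm_num)) (by norm_num) (by norm_num)
        (by norm_num), ?_⟩
    simp only at e1 ⊢
    have : x = (1 / 2 : ℝ) • b + (u + v) := by rw [← e2, e1]; abel
    rw [this]
    funext i
    simp only [Pi.smul_apply, Pi.add_apply, smul_eq_mul]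
    ring
  have key : (Y.card : ENNReal) * μ S ≤ μ ((5 / 2 : ℝ) • B) := by
    calc (Y.card : ENNReal) * μ S = ∑ y ∈ Y, μ (F y) := by
          simp [hFμ]
      _ = μ (⋃ y ∈ Y, F y) :=
          (MeasureTheory.measure_biUnion_finset hdis (fun y _ => hFm y)).symm
      _ ≤ _ := MeasureTheory.measure_mono hsub
  have e1 : μ S = ENNReal.ofReal ((1 / 2 : ℝ) ^ r) * μ B := by
    have := MeasureTheory.Measure.addHaar_smul μ (1 / 2 : ℝ) B
    rw [Module.finrank_fin_fun, abs_of_pos (by positivity)] at this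
    exact this
  have e2 : μ ((5 / 2 : ℝ) • B) = ENNReal.ofReal ((5 / 2 : ℝ) ^ r) * μ B := by
    have := MeasureTheory.Measure.addHaar_smul μ (5 / 2 : ℝ) B
    rw [Module.finrank_fin_fun, abs_of_pos (by positivity)] at this
    exact this
  rw [e1, e2, ← mul_assoc, ENNReal.mul_le_mul_iff_left hμ0 hμt] at key
  rw [show (Y.card : ENNReal) = ENNReal.ofReal (Y.card : ℝ) by simp,
    ← ENNReal.ofReal_mul (by positivity), ENNReal.ofReal_le_ofReal_iff (by positivity)] at key
  have h3 : (Y.card : ℝ) ≤ 5 ^ r := by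
    have h4 : (5 / 2 : ℝ) ^ r = 5 ^ r * (1 / 2) ^ r := by rw [← mul_pow]; norm_num
    rw [h4] at key
    exact le_of_mul_le_mul_right key (by positivity)
  exact_mod_cast h3

/-- the integer points of `B + B` are covered by `5 ^ r` translates of those of `B` -/
lemma cover_double {r : ℕ} (B : Set (Fin r → ℝ)) (hc : Convex ℝ B) (hk : IsCompact B)
    (hi : (interior B).Nonempty) (hs : ∀ x ∈ B, -x ∈ B) :
    ∃ Y : Finset (Fin r → ℤ), Y.card ≤ 5 ^ r ∧
      ∀ z : Fin r → ℤ, (∃ u ∈ B, ∃ v ∈ B, cst z = u + v) → ∃ y ∈ Y, cst (z - y) ∈ B := by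
  classical
  let Pr : ℕ → Prop := fun n => ∃ Y : Finset (Fin r → ℤ), Y.card = n ∧
    (∀ y ∈ Y, ∃ u ∈ B, ∃ v ∈ B, cst y = u + v) ∧
    (∀ y ∈ Y, ∀ y' ∈ Y, y ≠ y' → cst (y - y') ∉ B)
  have h0 : Pr 0 := ⟨∅, rfl, by simp, by simp⟩
  have h00 : (0 : Fin r → ℝ) ∈ B := by
    obtain ⟨x, hx⟩ := hi
    have hx := interior_subset hx
    have := hc hx (hs x hx) (a := 1 / 2) (b := 1 / 2) (by norm_num) (by norm_num) (by norm_num)
    simpa using this
  obtain ⟨Y, hY, hY1, hY2⟩ := Nat.findGreatest_spec (P := Pr) (Nat.zero_le (5 ^ r)) h0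
  refine ⟨Y, sep_card B hc hk hi hs Y hY1 hY2, ?_⟩
  intro z hz
  by_contra hcon
  push Not at hcon
  have hzY : z ∉ Y := by
    intro h
    apply hcon z h
    rw [sub_self, cst_zero]
    exact h00
  have hP : Pr (Y.card + 1) := by
    refine ⟨insert z Y, card_insert_of_notMem hzY, ?_, ?_⟩
    · intro y hy
      rcases mem_insert.1 hy with rfl | hy
      · exact hz
      · exact hY1 y hy
    · intro y hy y' hy' hne
      rcases mem_insert.1 hy with h | h <;> rcases mem_insert.1 hy' with h' | h'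
      · exact absurd (h.trans h'.symm) hne
      · rw [h]; exact hcon y' h'
      · rw [h']
        intro hb
        apply hcon y h
        have := hs _ hb
        rwa [← cst_neg, neg_sub] at this
      · exact hY2 y h y' h' hne
  have hle : Y.card + 1 ≤ 5 ^ r := by
    obtain ⟨Y', hY', hY1', hY2'⟩ := hP
    rw [← hY']
    exact sep_card B hc hk hi hs Y' hY1' hY2'
  have := Nat.le_findGreatest (P := Pr) hle hP
  omega

/-- a symmetric convex body with prescribed integer points -/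
lemma fatten {r : ℕ} (W : Finset (Fin r → ℤ)) (h0 : 0 ∈ W) (hs : ∀ x ∈ W, -x ∈ W)
    (hW : ∀ z : Fin r → ℤ, cst z ∈ convexHull ℝ (cst '' (W : Set (Fin r → ℤ))) → z ∈ W) :
    ∃ B : Set (Fin r → ℝ), Convex ℝ B ∧ IsCompact B ∧ (interior B).Nonempty ∧
      (∀ x ∈ B, -x ∈ B) ∧ ∀ z : Fin r → ℤ, cst z ∈ B ↔ z ∈ W := by
  classical
  set P : Set (Fin r → ℝ) := convexHull ℝ (cst '' (W : Set (Fin r → ℤ))) with hP
  have hPc : IsCompact P := (W.finite_toSet.image _).isCompact_convexHull ℝ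
  have hPs : -P = P := by
    rw [hP, ← convexHull_neg]
    congr 1
    ext x
    rw [Set.mem_neg]
    constructor
    · rintro ⟨w, hw, e⟩
      exact ⟨-w, hs w hw, by rw [cst_neg, e, neg_neg]⟩
    · rintro ⟨w, hw, e⟩
      exact ⟨-w, hs w hw, by rw [cst_neg, e]⟩
  have hU : IsOpen ((cst '' {z : Fin r → ℤ | z ∉ W})ᶜ) := (isClosed_cst _).isOpen_compl
  have hPU : P ⊆ (cst '' {z : Fin r → ℤ | z ∉ W})ᶜ := by
    rintro x hx ⟨z, hz, rfl⟩
    exact hz (hW z hx)
  obtain ⟨δ, hδ, hsub⟩ := hPc.exists_cthickening_subset_open hU hPU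
  have h0P : (0 : Fin r → ℝ) ∈ P := subset_convexHull ℝ _ ⟨0, h0, cst_zero⟩
  refine ⟨Metric.cthickening δ P, (convex_convexHull ℝ _).cthickening δ, hPc.cthickening,
    ⟨0, Metric.thickening_subset_interior_cthickening δ P (Metric.self_subset_thickening hδ P h0P)⟩,
    ?_, ?_⟩
  · intro x hx
    rw [Metric.mem_cthickening_iff] at hx ⊢
    rw [← hPs, infEDist_neg_neg]
    exact hx
  · intro z
    constructor
    · intro h
      by_contra hz
      exact hsub h ⟨z, hz, rfl⟩
    · intro hz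
      exact Metric.self_subset_cthickening P (subset_convexHull ℝ _ ⟨z, hz, rfl⟩)

end Pool.Agent.Q240.Cvx
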