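import Pool.Agent.Q240.Cvx.Main

/-! The polynomial Freiman-Ruzsa theorem for sets with a large convex part. -/

set_option autoImplicit false
open Finset
open scoped Pointwise

namespace Pool.Agent.Q240.Cvx

lemma twenty_pow {K : ℝ} (hK1 : 1 ≤ K) {r : ℕ} (hr : (r : ℝ) ≤ 480 * Real.log K + 1) :
    (20 : ℝ) ^ r ≤ 20 * K ^ 1440 := by
  have hK0 : 0 < K := by linarith
  have e1 : (20 : ℝ) ^ r = Real.exp (r * Real.log 20) := by
    rw [mul_comm, Real.exp_mul, Real.exp_log (by norm_num), Real.rpow_natCast]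
  have l20 : Real.log 20 ≤ 3 := by
    rw [Real.log_le_iff_le_exp (by norm_num)]
    have h := Real.exp_one_gt_d9
    have h2 : Real.exp 3 = Real.exp 1 ^ 3 := by
      rw [← Real.exp_nat_mul]
      congr 1
      norm_num
    rw [h2]
    calc (20 : ℝ) ≤ 2.7182818283 ^ 3 := by norm_num
      _ ≤ Real.exp 1 ^ 3 := pow_le_pow_left₀ (by norm_num) h.le 3
  have l0 : 0 ≤ Real.log 20 := Real.log_nonneg (by norm_num)
  have lK : 0 ≤ Real.log K := Real.log_nonneg hK1
  rw [e1]
  calc Real.exp (r * Real.log 20) ≤ Real.exp (Real.log 20 + (1440 : ℕ) * Real.log K) := by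
        apply Real.exp_le_exp.2
        have : (r : ℝ) * Real.log 20 ≤ (480 * Real.log K + 1) * Real.log 20 :=
          mul_le_mul_of_nonneg_right hr l0
        have h3 : Real.log K * Real.log 20 ≤ Real.log K * 3 := mul_le_mul_of_nonneg_left l20 lK
        push_cast
        nlinarith
    _ = 20 * K ^ 1440 := by
        rw [Real.exp_add, Real.exp_log (by norm_num), Real.exp_nat_mul, Real.exp_log hK0]

theorem pfr_convex {Γ : Type*} [AddCommGroup Γ] [DecidableEq Γ] {d : ℕ}
    (C : Set (Fin d → ℝ)) (hC : Convex ℝ C) (D : Finset (Fin d → ℤ)) (hD : D.Nonempty)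
    (hDC : ∀ x, x ∈ D ↔ cst x ∈ C) (φ : (Fin d → ℤ) →+ Γ) (g : Γ)
    (hφ : ∀ a ∈ D, ∀ b ∈ D, ∀ a' ∈ D, ∀ b' ∈ D, φ (a + b) = φ (a' + b') → a + b = a' + b')
    (A : Finset Γ) (hsub : ∀ x ∈ D, g + φ x ∈ A) (K L : ℝ)
    (hL : (A.card : ℝ) ≤ L * D.card) (hK : ((A + A).card : ℝ) ≤ K * A.card) :
    ∃ (r : ℕ) (B : Set (Fin r → ℝ)) (ψ : (Fin r → ℤ) →+ Γ) (T : Finset Γ),
      (r : ℝ) ≤ 480 * Real.log (K * L) + 1 ∧
      Convex ℝ B ∧ IsCompact B ∧ (interior B).Nonempty ∧ (∀ x ∈ B, -x ∈ B) ∧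
      {x : Fin r → ℤ | (fun i => (x i : ℝ)) ∈ B}.ncard ≤ A.card ∧
      (T.card : ℝ) ≤ 20 * (K * L) ^ 1812 ∧
      ∀ a ∈ A, ∃ t ∈ T, ∃ x : Fin r → ℤ, (fun i => (x i : ℝ)) ∈ B ∧ a = t + ψ x := by
  classical
  have hDc : (0 : ℝ) < D.card := by exact_mod_cast hD.card_pos
  have hφi : ∀ a ∈ D, ∀ b ∈ D, φ a = φ b → a = b := by
    intro a ha b hb h
    have := hφ a ha a ha b hb a ha (by rw [map_add, map_add, h])
    exact add_right_cancel this
  have hcardDA : D.card ≤ A.card := by
    apply Finset.card_le_card_of_injOn (fun x => g + φ x) hsub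
    intro x hx y hy h
    exact hφi x hx y hy (add_left_cancel h)
  have hAc : (0 : ℝ) < A.card := lt_of_lt_of_le hDc (by exact_mod_cast hcardDA)
  have hAne : A.Nonempty := by rw [← Finset.card_pos]; exact_mod_cast hAc
  have hK1 : 1 ≤ K := by
    have h1 : (A.card : ℝ) ≤ (A + A).card := by
      exact_mod_cast Finset.card_le_card_add_right hAne
    nlinarith
  have hL1 : 1 ≤ L := by
    have h1 : (D.card : ℝ) ≤ A.card := by exact_mod_cast hcardDA
    nlinarith
  have hK0 : 0 < K := by linarith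
  have hL0 : 0 < L := by linarith
  obtain ⟨M, hM⟩ : ∃ M : ℝ, M = K * L := ⟨_, rfl⟩
  rw [← hM]
  have hM1 : 1 ≤ M := by rw [hM]; nlinarith
  have hM0 : 0 < M := by linarith
  have hDD0 : (D + D).card ≤ (A + A).card := by
    apply Finset.card_le_card_of_injOn (fun x => g + g + φ x)
    · intro x hx
      rw [Finset.mem_coe, Finset.mem_add] at hx
      obtain ⟨a, ha, b, hb, rfl⟩ := hx
      simp only
      rw [map_add, add_add_add_comm]
      exact Finset.add_mem_add (hsub a ha) (hsub b hb)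
    · intro x hx y hy h
      rw [Finset.mem_coe, Finset.mem_add] at hx hy
      obtain ⟨a, ha, b, hb, rfl⟩ := hx
      obtain ⟨a', ha', b', hb', rfl⟩ := hy
      exact hφ a ha b hb a' ha' b' hb' (add_left_cancel h)
  have hDD : ((D + D).card : ℝ) ≤ M * D.card := by
    calc ((D + D).card : ℝ) ≤ (A + A).card := by exact_mod_cast hDD0
      _ ≤ K * A.card := hK
      _ ≤ K * (L * D.card) := mul_le_mul_of_nonneg_left hL hK0.le
      _ = M * D.card := by rw [hM]; ring
  obtain ⟨S, D1, t0, hS, hbig, hD1, hD1t⟩ := large_coset M D hD hDD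
  obtain ⟨r, ψ, hr, hψi, hψs⟩ := coords S
  obtain ⟨ψR, hψR⟩ := real_ext ψ
  have hD1ne : D1.Nonempty := by
    rw [← Finset.card_pos]
    rcases Nat.eq_zero_or_pos D1.card with h | h
    · exfalso
      rw [h] at hbig
      simp only [Nat.cast_zero, mul_zero] at hbig
      linarith
    · exact h
  obtain ⟨t, ht⟩ := hD1ne
  -- the pull-back
  let E : Finset (Fin r → ℤ) := D.preimage (fun z => t + ψ z)
    (fun x _ y _ h => hψi (add_left_cancel h))
  have hmemE : ∀ z, z ∈ E ↔ t + ψ z ∈ D := fun z => Finset.mem_preimage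
  have hE1 : D1.card ≤ E.card := by
    have hex : ∀ a ∈ D1, ∃ z, t + ψ z = a := by
      intro a ha
      have h1 := hD1t a ha
      have h2 := hD1t t ht
      have h3 : a - t ∈ AddSubgroup.closure (S : Set (Fin d → ℤ)) := by
        have := AddSubgroup.sub_mem _ h1 h2
        rwa [sub_sub_sub_cancel_right] at this
      obtain ⟨z, hz⟩ := hψs _ h3
      exact ⟨z, by rw [hz]; abel⟩
    have : D1 ⊆ E.image (fun z => t + ψ z) := by
      intro a ha
      obtain ⟨z, hz⟩ := hex a ha
      rw [mem_image]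
      exact ⟨z, (hmemE z).2 (by rw [hz]; exact hD1 ha), hz⟩
    exact (card_le_card this).trans card_image_le
  have hEne : E.Nonempty := by
    rw [← Finset.card_pos]
    exact lt_of_lt_of_le (Finset.card_pos.2 ⟨t, ht⟩) hE1
  have hEE : (E + E).card ≤ (D + D).card := by
    apply Finset.card_le_card_of_injOn (fun z => t + t + ψ z)
    · intro x hx
      rw [Finset.mem_coe, Finset.mem_add] at hx
      obtain ⟨a, ha, b, hb, rfl⟩ := hx
      simp only
      rw [map_add, add_add_add_comm]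
      exact Finset.add_mem_add ((hmemE a).1 ha) ((hmemE b).1 hb)
    · intro x _ y _ h
      exact hψi (add_left_cancel h)
  obtain ⟨x, ⟨a0, ha0, b0, hb0, hx0⟩, hpop⟩ := midpoint E hEne
  -- the convex set in `ℝ ^ r`
  let CR : Set (Fin r → ℝ) := {y | cst t + ψR y ∈ C}
  have hCR : Convex ℝ CR := by
    intro y hy z hz p q hp hq hpq
    change cst t + ψR (p • y + q • z) ∈ C
    have : cst t + ψR (p • y + q • z) = p • (cst t + ψR y) + q • (cst t + ψR z) := by
      rw [map_add, map_smul, map_smul, smul_add, smul_add]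
      have h1 : cst t = p • cst t + q • cst t := by rw [← add_smul, hpq, one_smul]
      conv_lhs => rw [h1]
      abel
    rw [this]
    exact hC hy hz hp hq hpq
  have hECR : ∀ z, z ∈ E ↔ cst z ∈ CR := by
    intro z
    rw [hmemE, hDC, cst_add, ← hψR]
    rfl
  -- the symmetric part
  let W : Finset (Fin r → ℤ) := (E.filter fun a => x + x - a ∈ E).image (fun a => a - x)
  have hmemW : ∀ z, z ∈ W ↔ (x + z ∈ E ∧ x - z ∈ E) := by
    intro z
    simp only [W, mem_image, mem_filter]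
    constructor
    · rintro ⟨a, ⟨h1, h2⟩, rfl⟩
      refine ⟨by rwa [add_sub_cancel], ?_⟩
      have : x - (a - x) = x + x - a := by abel
      rwa [this]
    · rintro ⟨h1, h2⟩
      refine ⟨x + z, ⟨h1, ?_⟩, by abel⟩
      have : x + x - (x + z) = x - z := by abel
      rwa [this]
  have hWcard : W.card = (E.filter fun a => x + x - a ∈ E).card :=
    Finset.card_image_of_injective _ (fun a b h => sub_left_injective h)
  have hxE : x ∈ E := by
    rw [hECR]
    have : cst x = (1 / 2 : ℝ) • cst a0 + (1 / 2 : ℝ) • cst b0 := by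
      rw [← smul_add, ← cst_add, ← hx0, cst_add]
      funext i
      simp only [Pi.smul_apply, Pi.add_apply, smul_eq_mul]
      ring
    rw [this]
    exact hCR ((hECR a0).1 ha0) ((hECR b0).1 hb0) (by norm_num) (by norm_num) (by norm_num)
  have h0W : (0 : Fin r → ℤ) ∈ W := by
    rw [hmemW, add_zero, sub_zero]
    exact ⟨hxE, hxE⟩
  have hWs : ∀ z ∈ W, -z ∈ W := by
    intro z hz
    rw [hmemW] at hz ⊢
    rw [sub_neg_eq_add, ← sub_eq_add_neg]
    exact ⟨hz.2, hz.1⟩
  have hWC : ∀ z : Fin r → ℤ, cst z ∈ convexHull ℝ (cst '' (W : Set (Fin r → ℤ))) → z ∈ W := by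
    intro z hz
    have hconv : Convex ℝ {y : Fin r → ℝ | cst x + y ∈ CR ∧ cst x - y ∈ CR} := by
      intro y hy y' hy' p q hp hq hpq
      refine ⟨?_, ?_⟩
      · have : cst x + (p • y + q • y') = p • (cst x + y) + q • (cst x + y') := by
          have h1 : cst x = p • cst x + q • cst x := by rw [← add_smul, hpq, one_smul]
          conv_lhs => rw [h1]
          rw [smul_add, smul_add]; abel
        rw [this]
        exact hCR hy.1 hy'.1 hp hq hpq
      · have : cst x - (p • y + q • y') = p • (cst x - y) + q • (cst x - y') := by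
          have h1 : cst x = p • cst x + q • cst x := by rw [← add_smul, hpq, one_smul]
          conv_lhs => rw [h1]
          rw [smul_sub, smul_sub]; abel
        rw [this]
        exact hCR hy.2 hy'.2 hp hq hpq
    have hsubW : cst '' (W : Set (Fin r → ℤ)) ⊆
        {y : Fin r → ℝ | cst x + y ∈ CR ∧ cst x - y ∈ CR} := by
      rintro _ ⟨w, hw, rfl⟩
      have := (hmemW w).1 hw
      refine ⟨?_, ?_⟩
      · rw [← cst_add]; exact (hECR _).1 this.1
      · rw [← cst_sub]; exact (hECR _).1 this.2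
    have h3 := convexHull_min hsubW hconv hz
    rw [hmemW, hECR, hECR, cst_add, cst_sub]
    exact h3
  obtain ⟨B, hB1, hB2, hB3, hB4, hB5⟩ := fatten W h0W hWs hWC
  obtain ⟨Y, hYc, hY⟩ := cover_double B hB1 hB2 hB3 hB4
  -- the covering
  let Dt : Finset Γ := W.image (fun z => g + φ (t + ψ (x + z)))
  have hDtA : Dt ⊆ A := by
    intro a ha
    rw [mem_image] at ha
    obtain ⟨z, hz, rfl⟩ := ha
    exact hsub _ ((hmemE _).1 ((hmemW z).1 hz).1)
  have hDtc : Dt.card = W.card := by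
    apply Finset.card_image_of_injOn
    intro z hz z' hz' h
    have h1 := hφi _ ((hmemE _).1 ((hmemW z).1 hz).1) _ ((hmemE _).1 ((hmemW z').1 hz').1)
      (add_left_cancel h)
    exact add_left_cancel (hψi (add_left_cancel h1))
  have hWpos : (0 : ℝ) < W.card := by exact_mod_cast Finset.card_pos.2 ⟨0, h0W⟩
  have hDtne : Dt.Nonempty := by
    rw [← Finset.card_pos, hDtc]
    exact Finset.card_pos.2 ⟨0, h0W⟩
  have hAD : ((A + Dt).card : ℝ) ≤ (K * A.card / W.card) * Dt.card := by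
    rw [hDtc, div_mul_cancel₀ _ hWpos.ne']
    refine le_trans ?_ hK
    exact_mod_cast card_le_card (Finset.add_subset_add_left hDtA)
  obtain ⟨F, -, hF, hAF⟩ := Finset.ruzsa_covering_add hDtne hAD
  have hrr : (r : ℝ) ≤ 480 * Real.log M + 1 := le_trans (by exact_mod_cast hr) hS
  -- the numbers
  have hnum : (F.card : ℝ) ≤ 4 ^ r * M ^ 372 := by
    refine hF.trans ?_
    rw [div_le_iff₀ hWpos]
    have e1 : (D.card : ℝ) ≤ M ^ 185 * E.card :=
      hbig.trans (mul_le_mul_of_nonneg_left (by exact_mod_cast hE1) (by positivity))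
    have e2 : ((E + E).card : ℝ) ≤ M * D.card := le_trans (by exact_mod_cast hEE) hDD
    have e3 : (D.card : ℝ) ^ 2 ≤ M ^ 370 * (E.card : ℝ) ^ 2 := by
      calc (D.card : ℝ) ^ 2 ≤ (M ^ 185 * E.card) ^ 2 := pow_le_pow_left₀ hDc.le e1 2
        _ = M ^ 370 * (E.card : ℝ) ^ 2 := by rw [mul_pow, ← pow_mul]
    have e4 : (E.card : ℝ) ^ 2 ≤ 4 ^ r * (M * D.card) * W.card := by
      rw [hWcard]
      refine hpop.trans ?_
      exact mul_le_mul_of_nonneg_right (mul_le_mul_of_nonneg_left e2 (by positivity))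
        (by positivity)
    have e5 : (D.card : ℝ) * D.card ≤ (4 ^ r * M ^ 371 * W.card) * D.card := by
      calc (D.card : ℝ) * D.card = (D.card : ℝ) ^ 2 := by ring
        _ ≤ M ^ 370 * (E.card : ℝ) ^ 2 := e3
        _ ≤ M ^ 370 * (4 ^ r * (M * D.card) * W.card) :=
            mul_le_mul_of_nonneg_left e4 (by positivity)
        _ = (4 ^ r * M ^ 371 * W.card) * D.card := by ring
    have e6 := le_of_mul_le_mul_right e5 hDc
    calc K * (A.card : ℝ) ≤ K * (L * D.card) := mul_le_mul_of_nonneg_left hL hK0.le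
      _ = M * D.card := by rw [hM]; ring
      _ ≤ M * (4 ^ r * M ^ 371 * W.card) := mul_le_mul_of_nonneg_left e6 hM0.le
      _ = 4 ^ r * M ^ 372 * W.card := by ring
  let G : Finset Γ := Y.image (fun y => φ (ψ y))
  have hGc : (G.card : ℝ) ≤ 5 ^ r := by
    have : G.card ≤ 5 ^ r := card_image_le.trans hYc
    exact_mod_cast this
  refine ⟨r, B, φ.comp ψ, F + G, hrr, hB1, hB2, hB3, hB4, ?_, ?_, ?_⟩
  · have : {x : Fin r → ℤ | (fun i => (x i : ℝ)) ∈ B} = (W : Set (Fin r → ℤ)) := by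
      ext z
      exact hB5 z
    rw [this, Set.ncard_coe_finset, ← hDtc]
    exact card_le_card hDtA
  · have h1 : ((F + G).card : ℝ) ≤ F.card * G.card := by exact_mod_cast Finset.card_add_le
    calc ((F + G).card : ℝ) ≤ F.card * G.card := h1
      _ ≤ (4 ^ r * M ^ 372) * 5 ^ r := mul_le_mul hnum hGc (by positivity) (by positivity)
      _ = 20 ^ r * M ^ 372 := by
          have h20 : (20 : ℝ) ^ r = 4 ^ r * 5 ^ r := by rw [← mul_pow]; norm_num
          rw [h20]; ring
      _ ≤ (20 * M ^ 1440) * M ^ 372 :=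
          mul_le_mul_of_nonneg_right (twenty_pow hM1 hrr) (by positivity)
      _ = 20 * M ^ 1812 := by ring
  · intro a ha
    obtain ⟨f, hf, h, hh, rfl⟩ := Finset.mem_add.1 (hAF ha)
    obtain ⟨β, hβ, β', hβ', rfl⟩ := Finset.mem_sub.1 hh
    rw [mem_image] at hβ hβ'
    obtain ⟨z, hz, rfl⟩ := hβ
    obtain ⟨z', hz', rfl⟩ := hβ'
    obtain ⟨y, hy, hyB⟩ := hY (z - z') ⟨cst z, (hB5 z).2 hz, cst (-z'), (hB5 _).2 (hWs z' hz'),
      by rw [← cst_add, sub_eq_add_neg]⟩
    refine ⟨f + φ (ψ y), Finset.add_mem_add hf (mem_image_of_mem _ hy), z - z' - y, hyB, ?_⟩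
    simp only [AddMonoidHom.comp_apply, map_sub, map_add]
    abel

end Pool.Agent.Q240.Cvx
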