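import Pool.Agent.Q240.Down.Main
import Pool.Agent.Q240.Cvx.Body

/-! The polynomial Freiman-Ruzsa theorem for sets with a large convex part. -/

set_option autoImplicit false
open Finset
open scoped Pointwise

namespace Pool.Agent.Q240.Cvx

lemma tors_free {d : ℕ} (x : Fin d → ℤ) (m : ℕ) (hm : 0 < m) (h : m • x = 0) : x = 0 := by
  funext i
  have := congrFun h i
  simp only [Pi.smul_apply, Pi.zero_apply, nsmul_eq_mul, mul_eq_zero] at this
  rcases this with h | h
  · exfalso; have : m = 0 := by exact_mod_cast h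
    omega
  · exact h

/-- a large part of `A` in a coset of a subgroup of rank `O(log K)` -/
lemma large_coset {d : ℕ} (K : ℝ) (A : Finset (Fin d → ℤ)) (hA : A.Nonempty)
    (hK : ((A + A).card : ℝ) ≤ K * A.card) :
    ∃ (S A' : Finset (Fin d → ℤ)) (t : Fin d → ℤ), (S.card : ℝ) ≤ 480 * Real.log K + 1 ∧
      (A.card : ℝ) ≤ K ^ 185 * A'.card ∧ A' ⊆ A ∧
      ∀ a ∈ A', a - t ∈ AddSubgroup.closure (S : Set (Fin d → ℤ)) := by
  classical
  have hc : (0 : ℝ) < A.card := by exact_mod_cast hA.card_pos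
  have hK1 : 1 ≤ K := by
    have h1 : (A.card : ℝ) ≤ (A + A).card := by
      exact_mod_cast Finset.card_le_card_add_right hA
    nlinarith
  have hK0 : 0 < K := by linarith
  obtain ⟨P, S, T0, hP, hS, hT0, hcov⟩ := Down.weak_int K A hA hK
  have hP0 : P = ⊥ := by
    rw [eq_bot_iff]
    intro x hx
    rw [AddSubgroup.mem_bot]
    haveI := hP
    have hfin : IsOfFinAddOrder (⟨x, hx⟩ : P) := isOfFinAddOrder_of_finite _
    rw [isOfFinAddOrder_iff_nsmul_eq_zero] at hfin
    obtain ⟨m, hm, h⟩ := hfin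
    exact tors_free x m hm (by simpa using congrArg Subtype.val h)
  have hcov' : ∀ a ∈ A, ∃ t ∈ T0, a - t ∈ AddSubgroup.closure (S : Set (Fin d → ℤ)) := by
    intro a ha
    obtain ⟨t, ht, o, ⟨m, hm, ho⟩, h⟩ := hcov a ha
    have : o = 0 := tors_free o m hm.pos ho
    rw [this, sub_zero, hP0, bot_sup_eq] at h
    exact ⟨t, ht, h⟩
  obtain ⟨t, ht, hbig⟩ : ∃ t ∈ T0, (A.card : ℝ) ≤ K ^ 185 *
      ((A.filter fun a => a - t ∈ AddSubgroup.closure (S : Set (Fin d → ℤ))).card : ℝ) := by
    by_contra hcon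
    push Not at hcon
    have hsub : A ⊆ T0.biUnion fun t => A.filter fun a =>
        a - t ∈ AddSubgroup.closure (S : Set (Fin d → ℤ)) := by
      intro a ha
      obtain ⟨t, ht, h⟩ := hcov' a ha
      exact mem_biUnion.2 ⟨t, ht, mem_filter.2 ⟨ha, h⟩⟩
    have h1 : A.card ≤ ∑ t ∈ T0, (A.filter fun a =>
        a - t ∈ AddSubgroup.closure (S : Set (Fin d → ℤ))).card :=
      (card_le_card hsub).trans card_biUnion_le
    have h1' : (A.card : ℝ) ≤ ∑ t ∈ T0, ((A.filter fun a =>
        a - t ∈ AddSubgroup.closure (S : Set (Fin d → ℤ))).card : ℝ) := by exact_mod_cast h1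
    have hT0ne : T0.Nonempty := by
      obtain ⟨a, ha⟩ := hA
      obtain ⟨t, ht, _⟩ := hcov' a ha
      exact ⟨t, ht⟩
    have h2 : ∑ t ∈ T0, K ^ 185 * ((A.filter fun a =>
        a - t ∈ AddSubgroup.closure (S : Set (Fin d → ℤ))).card : ℝ) < ∑ t ∈ T0, (A.card : ℝ) :=
      Finset.sum_lt_sum_of_nonempty hT0ne fun t ht => hcon t ht
    rw [← Finset.mul_sum, Finset.sum_const, nsmul_eq_mul] at h2
    have h3 : (T0.card : ℝ) * A.card ≤ K ^ 185 * A.card := mul_le_mul_of_nonneg_right hT0 hc.le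
    have h4 : K ^ 185 * (A.card : ℝ) ≤ K ^ 185 * ∑ t ∈ T0, ((A.filter fun a =>
        a - t ∈ AddSubgroup.closure (S : Set (Fin d → ℤ))).card : ℝ) :=
      mul_le_mul_of_nonneg_left h1' (by positivity)
    linarith
  exact ⟨S, _, t, hS, hbig, filter_subset _ _, fun a ha => (mem_filter.1 ha).2⟩

/-- coordinates on a finitely generated subgroup -/
lemma coords {d : ℕ} (S : Finset (Fin d → ℤ)) :
    ∃ (r : ℕ) (ψ : (Fin r → ℤ) →+ (Fin d → ℤ)), r ≤ S.card ∧ Function.Injective ψ ∧
      ∀ x ∈ AddSubgroup.closure (S : Set (Fin d → ℤ)), ∃ z, ψ z = x := by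
  classical
  let N : Submodule ℤ (Fin d → ℤ) := Submodule.span ℤ (S : Set (Fin d → ℤ))
  let b : Module.Basis (Fin (Module.finrank ℤ N)) ℤ N := Module.finBasis ℤ N
  refine ⟨Module.finrank ℤ N, (N.subtype ∘ₗ b.equivFun.symm.toLinearMap).toAddMonoidHom, ?_, ?_, ?_⟩
  · exact finrank_span_finset_le_card S
  · intro x y h
    have : (b.equivFun.symm x : Fin d → ℤ) = b.equivFun.symm y := h
    exact b.equivFun.symm.injective (Subtype.ext this)
  · intro x hx
    have hx' : x ∈ N := by
      rw [← Submodule.span_int_eq_addSubgroupClosure] at hx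
      exact hx
    exact ⟨b.equivFun ⟨x, hx'⟩, by simp⟩

/-- real extension of an integral map -/
lemma real_ext {r d : ℕ} (ψ : (Fin r → ℤ) →+ (Fin d → ℤ)) :
    ∃ ψR : (Fin r → ℝ) →ₗ[ℝ] (Fin d → ℝ), ∀ z, ψR (cst z) = cst (ψ z) := by
  classical
  refine ⟨{ toFun := fun y i => ∑ k, y k * (ψ (Pi.single k 1) i : ℝ)
            map_add' := ?_
            map_smul' := ?_ }, ?_⟩
  · intro x y
    funext i
    simp only [Pi.add_apply, add_mul, Finset.sum_add_distrib]
  · intro c x
    funext i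
    simp only [Pi.smul_apply, smul_eq_mul, RingHom.id_apply, Finset.mul_sum, mul_assoc]
  · intro z
    funext i
    have h : z = ∑ k, z k • (Pi.single k (1 : ℤ) : Fin r → ℤ) := by
      funext j
      simp [Finset.sum_apply, Pi.single_apply]
    have h2 : ψ z = ∑ k, z k • ψ (Pi.single k 1) := by
      conv_lhs => rw [h]
      rw [map_sum]
      simp only [map_zsmul]
    simp only [LinearMap.coe_mk, AddHom.coe_mk, cst]
    rw [h2]
    simp [Finset.sum_apply]

/-- a popular midpoint -/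
lemma midpoint {r : ℕ} (D : Finset (Fin r → ℤ)) (hD : D.Nonempty) :
    ∃ x : Fin r → ℤ, (∃ a ∈ D, ∃ b ∈ D, x + x = a + b) ∧
      (D.card : ℝ) ^ 2 ≤ 4 ^ r * (D + D).card * ((D.filter fun a => x + x - a ∈ D).card : ℝ) := by
  classical
  let c : (Fin r → ℤ) → (Fin r → ZMod 2) := fun z k => (z k : ZMod 2)
  obtain ⟨γ, hγ⟩ : ∃ γ, D.card ≤ 2 ^ r * (D.filter fun z => c z = γ).card := by
    by_contra hcon
    push Not at hcon
    have h1 : ∑ γ : Fin r → ZMod 2, 2 ^ r * (D.filter fun z => c z = γ).card <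
        ∑ _γ : Fin r → ZMod 2, D.card :=
      Finset.sum_lt_sum_of_nonempty univ_nonempty fun γ _ => hcon γ
    rw [← Finset.mul_sum, ← Finset.card_eq_sum_card_fiberwise (fun _ _ => mem_coe.2 (mem_univ _)),
      Finset.sum_const, Finset.card_univ, Fintype.card_fun, ZMod.card, Fintype.card_fin,
      smul_eq_mul] at h1
    omega
  set G := D.filter fun z => c z = γ with hG
  have hGne : G.Nonempty := by
    rw [← Finset.card_pos]
    rcases Nat.eq_zero_or_pos G.card with h | h
    · rw [h, mul_zero] at hγ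
      have := hD.card_pos
      omega
    · exact h
  -- popular sum
  obtain ⟨s, hs, hpop⟩ : ∃ s ∈ G + G, G.card ^ 2 ≤ (G + G).card *
      ((G ×ˢ G).filter fun p => p.1 + p.2 = s).card := by
    by_contra hcon
    push Not at hcon
    have h1 : ∑ s ∈ G + G, (G + G).card * ((G ×ˢ G).filter fun p => p.1 + p.2 = s).card <
        ∑ s ∈ G + G, G.card ^ 2 :=
      Finset.sum_lt_sum_of_nonempty (hGne.add hGne) hcon
    rw [← Finset.mul_sum, ← Finset.card_eq_sum_card_fiberwise, Finset.sum_const, smul_eq_mul,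
      card_product, ← sq] at h1
    · exact lt_irrefl _ h1
    · intro p hp
      rw [mem_coe, mem_product] at hp
      exact mem_coe.2 (add_mem_add hp.1 hp.2)
  obtain ⟨a0, ha0, b0, hb0, rfl⟩ := mem_add.1 hs
  have hpar : ∀ k, ∃ m, a0 k + b0 k = m + m := by
    intro k
    have e1 : c a0 k = c b0 k := by
      rw [(mem_filter.1 ha0).2, (mem_filter.1 hb0).2]
    simp only [c] at e1
    have e2 := (ZMod.intCast_eq_intCast_iff_dvd_sub _ _ _).1 e1
    obtain ⟨m, hm⟩ := e2
    push_cast at hm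
    exact ⟨a0 k + m, by linarith⟩
  choose x hx using hpar
  have hxx : x + x = a0 + b0 := by
    funext k
    exact (hx k).symm
  refine ⟨x, ⟨a0, (mem_filter.1 ha0).1, b0, (mem_filter.1 hb0).1, hxx⟩, ?_⟩
  have h1 : ((G ×ˢ G).filter fun p => p.1 + p.2 = a0 + b0).card ≤
      (D.filter fun a => x + x - a ∈ D).card := by
    apply Finset.card_le_card_of_injOn (fun p => p.1)
    · intro p hp
      rw [mem_coe, mem_filter, mem_product] at hp
      rw [mem_coe, mem_filter]
      refine ⟨(mem_filter.1 hp.1.1).1, ?_⟩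
      rw [hxx, ← hp.2, add_sub_cancel_left]
      exact (mem_filter.1 hp.1.2).1
    · intro p hp q hq h
      rw [mem_coe, mem_filter] at hp hq
      simp only at h
      have e : p.2 = q.2 := by
        have e1 := hp.2
        have e2 := hq.2
        rw [h] at e1
        rw [← e2] at e1
        exact add_left_cancel e1
      exact Prod.ext h e
  have h2 : (G + G).card ≤ (D + D).card :=
    card_le_card (add_subset_add (filter_subset _ _) (filter_subset _ _))
  have h3 : (D.card : ℝ) ≤ 2 ^ r * G.card := by exact_mod_cast hγ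
  have h4 : (G.card : ℝ) ^ 2 ≤ (D + D).card * ((D.filter fun a => x + x - a ∈ D).card : ℝ) := by
    have : G.card ^ 2 ≤ (D + D).card * (D.filter fun a => x + x - a ∈ D).card :=
      hpop.trans (Nat.mul_le_mul h2 h1)
    exact_mod_cast this
  calc (D.card : ℝ) ^ 2 ≤ (2 ^ r * G.card) ^ 2 := pow_le_pow_left₀ (by positivity) h3 2
    _ = 4 ^ r * (G.card : ℝ) ^ 2 := by
        rw [mul_pow, ← pow_mul, mul_comm r 2, pow_mul]; norm_num
    _ ≤ 4 ^ r * ((D + D).card * ((D.filter fun a => x + x - a ∈ D).card : ℝ)) :=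
        mul_le_mul_of_nonneg_left h4 (by positivity)
    _ = _ := by ring

end Pool.Agent.Q240.Cvx
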